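import Mathlib
import Pool.Agent.R856.TKF
import Pool.Agent.R856.CM7
import Pool.Agent.R856.CM8

set_option autoImplicit false

namespace Pool.Agent.Results.MP_54d89f_nt.AllItems

open Finset Pool.Agent.R856 Pool.Agent.R856.TK Pool.Agent.Helper857.Pad

/-- The congruence `r ≡ s (mod p^m)` of the problem: `p^m` divides the numerator of `r - s`
written in lowest terms. -/
def CongPow (p m : ℕ) (r s : ℚ) : Prop := (p : ℤ) ^ m ∣ (r - s).num

/-- `S_0(p)` -/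
def S0 (p : ℕ) : ℚ := ∑ k ∈ range p, ((2 * k).choose k : ℚ) ^ 3 / 16 ^ k

/-- `S_1(p)` -/
def S1 (p : ℕ) : ℚ := ∑ k ∈ range p, (k : ℚ) * ((2 * k).choose k : ℚ) ^ 3 / 16 ^ k

/-- The Euler numbers satisfy the recurrence of the problem. -/
theorem euler_zero : eulerE 0 = 1 := eulerE_zero

/-- The Euler numbers satisfy the recurrence of the problem. -/
theorem euler_rec (n : ℕ) (hn : 1 ≤ n) :
    ∑ k ∈ (range (n + 1)).filter (fun k => k % 2 = 0), (n.choose k : ℤ) * eulerE (n - k) = 0 :=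
  eulerE_rec n hn

/-- **Items 1, 2, 3, 4 and 5**. -/
theorem result :
    (∀ p : ℕ, p.Prime → 3 < p → p % 6 = 1 →
      (∃ x y : ℤ, (p : ℤ) = x ^ 2 + 3 * y ^ 2) ∧
      ∀ x y : ℤ, (p : ℤ) = x ^ 2 + 3 * y ^ 2 →
        CongPow p 2 (S0 p) (4 * (x : ℚ) ^ 2 - 2 * (p : ℚ)) ∧
        CongPow p 2 (S1 p) ((p : ℚ) - 4 * (x : ℚ) ^ 2 / 3)) ∧
    (∀ p : ℕ, p.Prime → 3 < p → p % 6 = 5 → CongPow p 2 (S1 p) ((p : ℚ) / 3)) ∧
    (∀ p : ℕ, p.Prime → 3 < p → ∀ a : ℕ, 1 ≤ a →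
      CongPow p 4 (1 / (p : ℚ) ^ a * ∑ k ∈ range (p ^ a), (3 * (k : ℚ) + 1) / 16 ^ k * ((2 * k).choose k : ℚ) ^ 3)
        (1 + 7 / 6 * (p : ℚ) ^ 3 * bernoulli (p - 3))) ∧
    (∀ (p : ℕ) (hp : p.Prime), 3 < p →
      CongPow p 4 (∑ k ∈ range ((p - 1) / 2 + 1), (3 * (k : ℚ) + 1) * (((2 * k).choose k : ℚ) ^ 3 / 16 ^ k))
        ((p : ℚ) + 2 * (@legendreSym p ⟨hp⟩ (-1) : ℚ) * (p : ℚ) ^ 3 * (eulerE (p - 3) : ℚ))) ∧
    (∀ n : ℕ, 2 ≤ n → 2 * n * (2 * n).choose n ∣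
      ∑ k ∈ range n, (3 * k + 1) * (2 * k).choose k ^ 3 * 16 ^ (n - 1 - k)) := by
  refine ⟨?_, ?_, ?_, ?_, ?_⟩
  · intro p hp h3 h6
    have _inst : Fact p.Prime := ⟨hp⟩
    obtain ⟨c, hc⟩ : ∃ c, 6 * c + 1 = p := ⟨p / 6, by omega⟩
    have hc1 : 1 ≤ c := by omega
    refine ⟨?_, ?_⟩
    · obtain ⟨u, v, -, h⟩ := CM.s1_form hc hc1
      exact ⟨u, v, h⟩
    · intro x y hxy
      have e0 : S0 p = ∑ k ∈ range p, t k := rfl
      have e1 : S1 p = ∑ k ∈ range p, (k:ℚ) * t k := by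
        unfold S1
        apply sum_congr rfl; intro k _
        unfold t; rw [mul_div_assoc]
      have hsq := CM.s1_sq hc hc1 x y hxy
      have hsq' : (CM.s1 p : ℚ) ^ 2 = 4 * (x:ℚ) ^ 2 := by exact_mod_cast hsq
      have h0 : I p 2 (∑ k ∈ range p, t k - (4 * (x : ℚ) ^ 2 - 2 * (p : ℚ))) := by
        have h := CM.S0_trace hc hc1
        rw [hsq'] at h
        exact h
      have hl := (linear_rel (p := p) h3).mono (show 2 ≤ 4 by norm_num)
      have n3 : ¬ p ∣ 3 := fun h => absurd (Nat.le_of_dvd (by norm_num) h) (by omega)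
      unfold CongPow
      refine ⟨?_, ?_⟩
      · apply num_of_I
        rw [e0]
        exact h0
      · apply num_of_I
        rw [e1]
        apply I.cancel n3
        have e : ((3:ℕ):ℚ) * (∑ k ∈ range p, (k:ℚ) * t k - ((p : ℚ) - 4 * (x : ℚ) ^ 2 / 3)) =
            (3 * (∑ k ∈ range p, (k:ℚ) * t k) + ∑ k ∈ range p, t k - (p:ℚ)) -
            (∑ k ∈ range p, t k - (4 * (x : ℚ) ^ 2 - 2 * (p : ℚ))) := by
          push_cast; ring
        rw [e]
        exact hl.sub h0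
  · intro p hp h3 h6
    have _inst : Fact p.Prime := ⟨hp⟩
    obtain ⟨m, hm⟩ : ∃ m, p = 2 * m + 1 := (hp.odd_of_ne_two (by omega))
    have h := CM.item2 (p := p) (m := m) hm.symm (by omega) (by omega)
    unfold CongPow
    apply num_of_I
    have e : S1 p = ∑ k ∈ range p, (k:ℚ) * t k := by
      unfold S1
      apply sum_congr rfl; intro k _
      unfold t; rw [mul_div_assoc]
    rw [e]
    exact h
  · intro p hp h3 a ha
    have _inst : Fact p.Prime := ⟨hp⟩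
    have h := full_range (p := p) h3 a ha
    unfold CongPow
    apply num_of_I
    have e : 1 / (p : ℚ) ^ a * ∑ k ∈ range (p ^ a), (3 * (k : ℚ) + 1) / 16 ^ k * ((2 * k).choose k : ℚ) ^ 3 =
        (∑ k ∈ range (p^a), (3 * (k:ℚ) + 1) * t k) / (p:ℚ)^a := by
      rw [one_div, inv_mul_eq_div]
      congr 1
      apply sum_congr rfl; intro k _
      unfold t; ring
    rw [e]
    exact h
  · intro p hp h3
    have _inst : Fact p.Prime := ⟨hp⟩
    have hp2 : p ≠ 2 := by omega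
    obtain ⟨m, hm⟩ : ∃ m, p = 2 * m + 1 := (hp.odd_of_ne_two hp2)
    have h := half_range (p := p) (m := m) hm.symm (by omega)
    have e1 : (p - 1) / 2 = m := by omega
    have e2 : ((@legendreSym p ⟨hp⟩ (-1) : ℤ) : ℚ) = (-1) ^ m := by
      have h4 := legendreSym.at_neg_one (p := p) hp2
      rw [h4, ZMod.χ₄_eq_neg_one_pow (by omega), show p / 2 = m by omega]
      push_cast; rfl
    unfold CongPow
    rw [e1, e2]
    apply num_of_I
    exact h
  · intro n hn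
    exact XX_dvd n hn

end Pool.Agent.Results.MP_54d89f_nt.AllItems
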